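import Pool.Agent.H261R3.LN.Stmts

/-! Task TriN of project LN: the metric axioms in the upper half space. -/

set_option autoImplicit false

namespace Pool.Agent.H475R3.LN

open Pool.Agent.H261R3.LN

/-- the argument of arcosh -/
noncomputable def arg {m : ℕ} (z w : Hyp m) : ℝ :=
  1 + (‖z.x - w.x‖ ^ 2 + (z.y - w.y) ^ 2) / (2 * z.y * w.y)

theorem hdist_eq {m : ℕ} (z w : Hyp m) : hdist z w = Real.arcosh (arg z w) := rfl

theorem one_le_arg {m : ℕ} (z w : Hyp m) : 1 ≤ arg z w := by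
  have h1 := z.pos
  have h2 := w.pos
  unfold arg
  have : 0 ≤ (‖z.x - w.x‖ ^ 2 + (z.y - w.y) ^ 2) / (2 * z.y * w.y) := by positivity
  linarith

theorem arg_comm {m : ℕ} (z w : Hyp m) : arg z w = arg w z := by
  unfold arg
  rw [norm_sub_rev]
  congr 1
  congr 1
  · ring
  · ring

theorem CS (P2 Q2 c p q b NP NQ : ℝ) (hP : P2 = NP ^ 2) (hQ : Q2 = NQ ^ 2)
    (hc : |c| ≤ NP * NQ) :
    (4 * b ^ 2 * c + p * q) ^ 2 ≤ (4 * b ^ 2 * P2 + p ^ 2) * (4 * b ^ 2 * Q2 + q ^ 2) := by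
  have h1 : c ^ 2 ≤ P2 * Q2 := by
    rw [hP, hQ, ← mul_pow, ← sq_abs c]
    exact pow_le_pow_left₀ (abs_nonneg c) hc 2
  have h2 : 2 * (c * p * q) ≤ P2 * q ^ 2 + Q2 * p ^ 2 := by
    have h3 : |c * p * q| ≤ (NP * NQ) * (|p| * |q|) := by
      rw [mul_assoc, abs_mul, abs_mul p q]
      exact mul_le_mul_of_nonneg_right hc (by positivity)
    have h4 : c * p * q ≤ |c * p * q| := le_abs_self _
    have h5 : 2 * ((NP * NQ) * (|p| * |q|)) ≤ P2 * q ^ 2 + Q2 * p ^ 2 := by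
      rw [hP, hQ, ← sq_abs p, ← sq_abs q]
      nlinarith [sq_nonneg (NP * |q| - NQ * |p|)]
    linarith
  nlinarith [mul_nonneg (sq_nonneg b) (sub_nonneg.2 h2),
    mul_nonneg (mul_nonneg (sq_nonneg b) (sq_nonneg b)) (sub_nonneg.2 h1)]

theorem key {m : ℕ} (z w v : Hyp m) :
    (arg z w * arg w v - arg z v) ^ 2 ≤ (arg z w ^ 2 - 1) * (arg w v ^ 2 - 1) := by
  obtain ⟨x1, s, hs⟩ := z
  obtain ⟨x0, b, hb⟩ := w
  obtain ⟨x2, t, ht⟩ := v
  simp only [arg]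
  set P := x1 - x0 with hP
  set Q := x2 - x0 with hQ
  have e1 : ‖x0 - x2‖ = ‖Q‖ := by rw [norm_sub_rev]
  have e2 : ‖x1 - x2‖ ^ 2 = ‖P‖ ^ 2 - 2 * inner ℝ P Q + ‖Q‖ ^ 2 := by
    have : x1 - x2 = P - Q := by rw [hP, hQ]; abel
    rw [this, norm_sub_sq_real]
  rw [e1, e2]
  have hc : |inner ℝ P Q| ≤ ‖P‖ * ‖Q‖ := abs_real_inner_le_norm P Q
  set c := inner ℝ P Q with hcdef
  have hs0 := hs.ne'
  have hb0 := hb.ne'
  have ht0 := ht.ne'
  have f1 : (1 + (‖P‖ ^ 2 + (s - b) ^ 2) / (2 * s * b)) * (1 + (‖Q‖ ^ 2 + (b - t) ^ 2) / (2 * b * t))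
      - (1 + (‖P‖ ^ 2 - 2 * c + ‖Q‖ ^ 2 + (s - t) ^ 2) / (2 * s * t)) =
      (4 * b ^ 2 * c + (‖P‖ ^ 2 + s ^ 2 - b ^ 2) * (‖Q‖ ^ 2 + t ^ 2 - b ^ 2)) / (4 * s * t * b ^ 2) := by
    field_simp
    ring
  have f2 : (1 + (‖P‖ ^ 2 + (s - b) ^ 2) / (2 * s * b)) ^ 2 - 1 =
      (4 * b ^ 2 * ‖P‖ ^ 2 + (‖P‖ ^ 2 + s ^ 2 - b ^ 2) ^ 2) / (4 * s ^ 2 * b ^ 2) := by
    field_simp
    ring
  have f3 : (1 + (‖Q‖ ^ 2 + (b - t) ^ 2) / (2 * b * t)) ^ 2 - 1 =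
      (4 * b ^ 2 * ‖Q‖ ^ 2 + (‖Q‖ ^ 2 + t ^ 2 - b ^ 2) ^ 2) / (4 * t ^ 2 * b ^ 2) := by
    field_simp
    ring
  rw [f1, f2, f3, div_pow, div_mul_div_comm]
  have f4 : (4 * s * t * b ^ 2) ^ 2 = 4 * s ^ 2 * b ^ 2 * (4 * t ^ 2 * b ^ 2) := by ring
  rw [f4]
  apply div_le_div_of_nonneg_right _ (by positivity)
  exact CS _ _ _ _ _ _ _ _ rfl rfl hc

theorem taskTriN : TaskTriN := by
  intro m z w v
  have ha := one_le_arg z w
  have hb := one_le_arg w v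
  have hc := one_le_arg z v
  refine ⟨?_, ?_, ?_, ?_, ?_⟩
  · rw [hdist_eq, hdist_eq, hdist_eq]
    have hA := Real.arcosh_nonneg ha
    have hB := Real.arcosh_nonneg hb
    rw [← Real.arcosh_cosh (add_nonneg hA hB)]
    rw [Real.arcosh_le_arcosh (by linarith) (Real.cosh_pos _), Real.cosh_add, Real.cosh_arcosh ha,
      Real.cosh_arcosh hb, Real.sinh_arcosh ha, Real.sinh_arcosh hb,
      ← Real.sqrt_mul (by nlinarith)]
    have h1 := Real.abs_le_sqrt (key z w v)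
    have h2 := neg_abs_le (arg z w * arg w v - arg z v)
    linarith
  · intro h
    rw [hdist_eq, Real.arcosh_eq_zero_iff ha] at h
    have h1 := z.pos
    have h2 := w.pos
    unfold arg at h
    have h3 : (‖z.x - w.x‖ ^ 2 + (z.y - w.y) ^ 2) / (2 * z.y * w.y) = 0 := by linarith
    rw [div_eq_zero_iff] at h3
    have h4 : ‖z.x - w.x‖ ^ 2 + (z.y - w.y) ^ 2 = 0 := by
      rcases h3 with h3 | h3
      · exact h3
      · exfalso; have : 0 < 2 * z.y * w.y := by positivity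
        linarith
    have h5 : ‖z.x - w.x‖ = 0 := by nlinarith [sq_nonneg (z.y - w.y), norm_nonneg (z.x - w.x)]
    have h6 : z.y - w.y = 0 := by nlinarith [sq_nonneg (z.y - w.y), norm_nonneg (z.x - w.x)]
    rw [norm_eq_zero, sub_eq_zero] at h5
    obtain ⟨x1, s, hs⟩ := z
    obtain ⟨x0, b, hb⟩ := w
    simp only at h5 h6
    have h7 : s = b := by linarith
    subst h5
    subst h7
    rfl
  · rw [hdist_eq]
    have : arg z z = 1 := by simp [arg]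
    rw [this, Real.arcosh_zero]
  · rw [hdist_eq, hdist_eq, arg_comm]
  · rw [hdist_eq]
    exact Real.arcosh_nonneg ha

end Pool.Agent.H475R3.LN
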